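import Mathlib

/-!
# A Polish group of 2-adic integers: the norm

For a 2-adic integer `z` and `e : ℕ` let `D e z` be the distance of `z / 2^e` to the nearest integer.
`nu z = ∑ i, (D ((i+1)!) z) ^ (1 / i!)`.
-/

set_option autoImplicit false

open scoped ENNReal Topology Nat
open Filter

namespace Pool.Agent.H44LM

/-- distance of `z / 2^e` to the nearest integer. -/
noncomputable def D (e : ℕ) (z : ℤ_[2]) : ℝ :=
  ((PadicInt.toZModPow e z).valMinAbs.natAbs : ℝ) / 2 ^ e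

theorem D_nonneg (e : ℕ) (z : ℤ_[2]) : 0 ≤ D e z := by unfold D; positivity

theorem D_neg (e : ℕ) (z : ℤ_[2]) : D e (-z) = D e z := by
  simp [D, map_neg, ZMod.natAbs_valMinAbs_neg]

theorem D_add_le (e : ℕ) (z w : ℤ_[2]) : D e (z + w) ≤ D e z + D e w := by
  unfold D
  rw [← add_div, map_add]
  have h := ZMod.natAbs_valMinAbs_add_le (PadicInt.toZModPow e z) (PadicInt.toZModPow e w)
  have h2 := Int.natAbs_add_le (PadicInt.toZModPow e z).valMinAbs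
    (PadicInt.toZModPow e w).valMinAbs
  gcongr
  exact_mod_cast h.trans h2

theorem toZ_zero_iff {e : ℕ} {z : ℤ_[2]} :
    PadicInt.toZModPow e z = 0 ↔ (2 : ℤ_[2]) ^ e ∣ z := by
  rw [← RingHom.mem_ker, PadicInt.ker_toZModPow, Ideal.mem_span_singleton]
  norm_num

theorem D_eq_zero_iff {e : ℕ} {z : ℤ_[2]} : D e z = 0 ↔ (2 : ℤ_[2]) ^ e ∣ z := by
  rw [← toZ_zero_iff]
  unfold D
  constructor
  · intro h
    rw [div_eq_zero_iff] at h
    rcases h with h | h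
    · have h1 : (PadicInt.toZModPow e z).valMinAbs.natAbs = 0 := by exact_mod_cast h
      rw [Int.natAbs_eq_zero] at h1
      exact (ZMod.valMinAbs_eq_zero _).1 h1
    · exact absurd h (by positivity)
  · intro h
    rw [h]
    simp

theorem D_congr {e : ℕ} {z w : ℤ_[2]} (h : (2 : ℤ_[2]) ^ e ∣ z - w) : D e z = D e w := by
  have h1 := toZ_zero_iff.2 h
  rw [map_sub, sub_eq_zero] at h1
  unfold D
  rw [h1]

theorem D_ge {e : ℕ} {z : ℤ_[2]} (h : ¬ (2 : ℤ_[2]) ^ e ∣ z) : 1 / 2 ^ e ≤ D e z := by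
  have h1 : (PadicInt.toZModPow e z).valMinAbs.natAbs ≠ 0 := by
    intro h2
    apply h
    rw [← D_eq_zero_iff]
    unfold D
    rw [h2]
    simp
  unfold D
  gcongr
  have : 1 ≤ (PadicInt.toZModPow e z).valMinAbs.natAbs := Nat.one_le_iff_ne_zero.2 h1
  exact_mod_cast this

theorem D_natCast_le (e n : ℕ) : D e (n : ℤ_[2]) ≤ n / 2 ^ e := by
  unfold D
  rw [map_natCast]
  gcongr
  rw [ZMod.valMinAbs_natAbs_eq_min]
  refine (min_le_left _ _).trans ?_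
  rw [ZMod.val_natCast]
  exact Nat.mod_le _ _

theorem D_half {e n : ℕ} (he : 2 ≤ e) (hn : n ≤ 2 ^ (e - 2)) :
    1 / 4 ≤ D e ((n + 2 ^ (e - 1) : ℕ) : ℤ_[2]) := by
  obtain ⟨f, rfl⟩ : ∃ f, e = f + 2 := ⟨e - 2, by omega⟩
  have h1 : f + 2 - 1 = f + 1 := by omega
  have h2 : f + 2 - 2 = f := by omega
  rw [h2] at hn
  rw [h1]
  unfold D
  rw [map_natCast, ZMod.valMinAbs_natAbs_eq_min, ZMod.val_natCast]
  have h3 : (2 : ℕ) ^ (f + 1) = 2 * 2 ^ f := by ring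
  have h4 : (2 : ℕ) ^ (f + 2) = 4 * 2 ^ f := by ring
  have h5 : (n + 2 ^ (f + 1)) % 2 ^ (f + 2) = n + 2 ^ (f + 1) := by
    apply Nat.mod_eq_of_lt
    have : 0 < 2 ^ f := by positivity
    omega
  rw [h5]
  rw [le_div_iff₀ (by positivity)]
  have h6 : 2 ^ f ≤ min (n + 2 ^ (f + 1)) (2 ^ (f + 2) - (n + 2 ^ (f + 1))) := by
    have : 0 < 2 ^ f := by positivity
    rw [le_min_iff]
    omega
  have h7 : ((2 ^ f : ℕ) : ℝ) ≤ (min (n + 2 ^ (f + 1)) (2 ^ (f + 2) - (n + 2 ^ (f + 1))) : ℕ) := by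
    exact_mod_cast h6
  refine le_trans (le_of_eq ?_) h7
  push_cast
  ring

theorem D_natMul_le (e : ℕ) (z : ℤ_[2]) (k : ℕ) : D e ((k : ℤ_[2]) * z) ≤ k * D e z := by
  induction k with
  | zero =>
    simp only [Nat.cast_zero, zero_mul]
    rw [D_eq_zero_iff.2 (dvd_zero _)]
  | succ k ih =>
    have : ((k + 1 : ℕ) : ℤ_[2]) * z = (k : ℤ_[2]) * z + z := by push_cast; ring
    rw [this]
    refine (D_add_le _ _ _).trans ?_
    push_cast
    linarith

/-- the exponents -/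
def ex (i : ℕ) : ℕ := (i + 1)!

/-- the powers -/
noncomputable def s (i : ℕ) : ℝ := ((i ! : ℕ) : ℝ)⁻¹

theorem s_pos (i : ℕ) : 0 < s i := by
  unfold s
  have := Nat.factorial_pos i
  positivity

theorem s_le_one (i : ℕ) : s i ≤ 1 := by
  unfold s
  have : (1 : ℝ) ≤ (i ! : ℕ) := by exact_mod_cast Nat.factorial_pos i
  exact inv_le_one_of_one_le₀ this

theorem ex_mono {i j : ℕ} (h : i ≤ j) : ex i ≤ ex j :=
  Nat.factorial_le (by omega)

theorem le_ex (i : ℕ) : i + 1 ≤ ex i := Nat.self_le_factorial _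

theorem ex_pos (i : ℕ) : 0 < ex i := Nat.factorial_pos _

theorem pow_s {x : ℝ} (hx : 0 ≤ x) (i : ℕ) : (x ^ (i !)) ^ (s i) = x := by
  unfold s
  exact Real.pow_rpow_inv_natCast hx (Nat.factorial_pos i).ne'

/-- the `i`th term of the norm -/
noncomputable def lam (i : ℕ) (z : ℤ_[2]) : ℝ := (D (ex i) z) ^ (s i)

theorem lam_nonneg (i : ℕ) (z : ℤ_[2]) : 0 ≤ lam i z := Real.rpow_nonneg (D_nonneg _ _) _

theorem lam_neg (i : ℕ) (z : ℤ_[2]) : lam i (-z) = lam i z := by simp [lam, D_neg]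

theorem lam_add_le (i : ℕ) (z w : ℤ_[2]) : lam i (z + w) ≤ lam i z + lam i w := by
  unfold lam
  refine (Real.rpow_le_rpow (D_nonneg _ _) (D_add_le _ _ _) (s_pos i).le).trans ?_
  exact Real.rpow_add_le_add_rpow (D_nonneg _ _) (D_nonneg _ _) (s_pos i).le (s_le_one i)

theorem lam_sub_le (i : ℕ) (z w : ℤ_[2]) : lam i (z - w) ≤ lam i z + lam i w := by
  rw [sub_eq_add_neg]
  refine (lam_add_le _ _ _).trans ?_
  rw [lam_neg]

theorem lam_eq_zero {i : ℕ} {z : ℤ_[2]} (h : (2 : ℤ_[2]) ^ ex i ∣ z) : lam i z = 0 := by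
  unfold lam
  rw [D_eq_zero_iff.2 h, Real.zero_rpow (s_pos i).ne']

theorem lam_eq_zero' {i m : ℕ} {z : ℤ_[2]} (hi : i ≤ m) (h : (2 : ℤ_[2]) ^ ex m ∣ z) :
    lam i z = 0 :=
  lam_eq_zero ((pow_dvd_pow _ (ex_mono hi)).trans h)

theorem lam_congr {i : ℕ} {z w : ℤ_[2]} (h : (2 : ℤ_[2]) ^ ex i ∣ z - w) : lam i z = lam i w := by
  unfold lam
  rw [D_congr h]

theorem lam_congr' {i m : ℕ} {z w : ℤ_[2]} (hi : i ≤ m) (h : (2 : ℤ_[2]) ^ ex m ∣ z - w) :
    lam i z = lam i w :=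
  lam_congr ((pow_dvd_pow _ (ex_mono hi)).trans h)

theorem lam_ge {i : ℕ} {z : ℤ_[2]} (h : ¬ (2 : ℤ_[2]) ^ ex i ∣ z) :
    (1 / 2 : ℝ) ^ (i + 1) ≤ lam i z := by
  unfold lam
  rw [← pow_s (x := (1 / 2 : ℝ) ^ (i + 1)) (by positivity) i]
  refine Real.rpow_le_rpow (by positivity) ?_ (s_pos i).le
  refine le_trans (le_of_eq ?_) (D_ge h)
  rw [← pow_mul, ← Nat.factorial_succ, one_div_pow]
  rfl

theorem lam_mul_le {j i k : ℕ} (z : ℤ_[2]) (hji : j < i) (hk : k ≤ 2 ^ ex j) :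
    lam i ((k : ℤ_[2]) * z) ≤ 2 * lam i z := by
  unfold lam
  have h1 : (D (ex i) ((k : ℤ_[2]) * z)) ^ s i ≤ (k * D (ex i) z) ^ s i :=
    Real.rpow_le_rpow (D_nonneg _ _) (D_natMul_le _ _ _) (s_pos i).le
  refine h1.trans ?_
  rw [Real.mul_rpow (by positivity) (D_nonneg _ _)]
  refine mul_le_mul_of_nonneg_right ?_ (Real.rpow_nonneg (D_nonneg _ _) _)
  have h2 : (k : ℝ) ≤ 2 ^ (i !) := by
    have h3 : k ≤ 2 ^ (i !) := hk.trans (Nat.pow_le_pow_right (by norm_num)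
      (Nat.factorial_le (by omega)))
    exact_mod_cast h3
  calc (k : ℝ) ^ s i ≤ (2 ^ (i !)) ^ s i := Real.rpow_le_rpow (by positivity) h2 (s_pos i).le
    _ = 2 := pow_s (by norm_num) i

theorem lam_nat_le {j i n : ℕ} (hji : j < i) (hn : n ≤ 2 ^ ex j) :
    lam i (n : ℤ_[2]) ≤ (1 / 2 : ℝ) ^ i := by
  unfold lam
  rw [← pow_s (x := (1 / 2 : ℝ) ^ i) (by positivity) i]
  refine Real.rpow_le_rpow (D_nonneg _ _) ?_ (s_pos i).le
  refine (D_natCast_le _ _).trans ?_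
  rw [← pow_mul, one_div_pow, div_le_div_iff₀ (by positivity) (by positivity)]
  have h1 : ex i = i * i ! + i ! := by
    unfold ex
    rw [Nat.factorial_succ]
    ring
  rw [h1, pow_add, one_mul, mul_comm]
  refine mul_le_mul_of_nonneg_left ?_ (by positivity)
  have h3 : n ≤ 2 ^ (i !) := hn.trans (Nat.pow_le_pow_right (by norm_num)
      (Nat.factorial_le (by omega)))
  exact_mod_cast h3

/-- the extended norm -/
noncomputable def nu (z : ℤ_[2]) : ℝ≥0∞ := ∑' i, ENNReal.ofReal (lam i z)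

theorem lam_le_nu (i : ℕ) (z : ℤ_[2]) : ENNReal.ofReal (lam i z) ≤ nu z := ENNReal.le_tsum i

theorem nu_zero : nu 0 = 0 := by
  unfold nu
  rw [ENNReal.tsum_eq_zero]
  intro i
  rw [lam_eq_zero (dvd_zero _)]
  simp

theorem nu_neg (z : ℤ_[2]) : nu (-z) = nu z := by simp [nu, lam_neg]

theorem nu_add_le (z w : ℤ_[2]) : nu (z + w) ≤ nu z + nu w := by
  unfold nu
  rw [← ENNReal.tsum_add]
  refine ENNReal.tsum_le_tsum fun i => ?_
  rw [← ENNReal.ofReal_add (lam_nonneg _ _) (lam_nonneg _ _)]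
  exact ENNReal.ofReal_le_ofReal (lam_add_le _ _ _)

theorem dvd_of_nu_lt {i : ℕ} {z : ℤ_[2]} (h : nu z < ENNReal.ofReal ((1 / 2) ^ (i + 1))) :
    (2 : ℤ_[2]) ^ ex i ∣ z := by
  by_contra hc
  have h1 := lam_ge hc
  have h2 := (ENNReal.ofReal_le_ofReal h1).trans (lam_le_nu i z)
  exact absurd (h2.trans_lt h) (lt_irrefl _)

theorem eq_zero_of_dvd {z : ℤ_[2]} (h : ∀ i, (2 : ℤ_[2]) ^ ex i ∣ z) : z = 0 := by
  by_contra hz
  have h1 := h z.valuation
  have h2 : z ∈ (Ideal.span {((2 : ℕ) : ℤ_[2]) ^ (ex z.valuation)} : Ideal ℤ_[2]) := by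
    rw [Ideal.mem_span_singleton]
    exact_mod_cast h1
  rw [PadicInt.mem_span_pow_iff_le_valuation z hz] at h2
  have := le_ex z.valuation
  omega

theorem eq_zero_of_nu {z : ℤ_[2]} (h : nu z = 0) : z = 0 := by
  apply eq_zero_of_dvd
  intro i
  apply dvd_of_nu_lt
  rw [h]
  simp

theorem nu_eq_tail {m : ℕ} {z : ℤ_[2]} (h : (2 : ℤ_[2]) ^ ex m ∣ z) :
    nu z = ∑' i, ENNReal.ofReal (lam (i + (m + 1)) z) := by
  unfold nu
  rw [← ENNReal.summable.sum_add_tsum_nat_add' (k := m + 1) (f := fun i => ENNReal.ofReal (lam i z))]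
  rw [Finset.sum_eq_zero, zero_add]
  intro i hi
  rw [Finset.mem_range] at hi
  rw [lam_eq_zero' (by omega : i ≤ m) h]
  simp

/-- the geometric tail -/
theorem tail_geom (m : ℕ) :
    ∑' i : ℕ, ENNReal.ofReal ((1 / 2 : ℝ) ^ (i + (m + 1))) = ENNReal.ofReal ((1 / 2) ^ m) := by
  rw [← ENNReal.ofReal_tsum_of_nonneg (fun i => by positivity)]
  · congr 1
    simp_rw [pow_add]
    rw [tsum_mul_right, tsum_geometric_of_lt_one (by norm_num) (by norm_num)]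
    ring
  · simp_rw [pow_add]
    exact (summable_geometric_of_lt_one (by norm_num) (by norm_num)).mul_right _

theorem nu_nat_ne_top (n : ℕ) : nu (n : ℤ_[2]) ≠ ⊤ := by
  have hn : n ≤ 2 ^ ex n := by
    have h1 : n ≤ ex n := by have := le_ex n; omega
    exact h1.trans (Nat.lt_two_pow_self).le
  unfold nu
  rw [← ENNReal.summable.sum_add_tsum_nat_add' (k := n + 1)
    (f := fun i => ENNReal.ofReal (lam i (n : ℤ_[2])))]
  refine ENNReal.add_ne_top.2 ⟨?_, ?_⟩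
  · exact ENNReal.sum_ne_top.2 fun i _ => ENNReal.ofReal_ne_top
  · refine ne_top_of_le_ne_top (b := ENNReal.ofReal ((1 / 2) ^ n)) ENNReal.ofReal_ne_top ?_
    rw [← tail_geom]
    refine ENNReal.tsum_le_tsum fun i => ENNReal.ofReal_le_ofReal ?_
    exact lam_nat_le (j := n) (by omega) hn

/-- the powers of two tend to zero -/
theorem nu_pow_le (j : ℕ) : nu ((2 : ℤ_[2]) ^ ex j) ≤ ENNReal.ofReal ((1 / 2) ^ j) := by
  rw [nu_eq_tail (dvd_refl _), ← tail_geom]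
  refine ENNReal.tsum_le_tsum fun i => ENNReal.ofReal_le_ofReal ?_
  have := lam_nat_le (j := j) (i := i + (j + 1)) (n := 2 ^ ex j) (by omega) le_rfl
  exact_mod_cast this

end Pool.Agent.H44LM
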