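import Pool.Agent.H44LM.A

/-!
# A Polish group of 2-adic integers: the group, completeness, closed subgroups
-/

set_option autoImplicit false

open scoped ENNReal Topology Nat
open Filter

namespace Pool.Agent.H44LM

/-- the subgroup of 2-adic integers of finite norm -/
def Gsub : AddSubgroup ℤ_[2] where
  carrier := {z | nu z ≠ ⊤}
  zero_mem' := by simp [nu_zero]
  add_mem' := fun {a b} ha hb => ne_top_of_le_ne_top (ENNReal.add_ne_top.2 ⟨ha, hb⟩) (nu_add_le a b)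
  neg_mem' := fun {a} ha => by
    change nu (-a) ≠ ⊤
    rw [nu_neg]
    exact ha

/-- the group (a type synonym without a topology) -/
def Gp : Type := Gsub

noncomputable instance : AddCommGroup Gp := inferInstanceAs (AddCommGroup Gsub)

/-- the inclusion into the 2-adic integers -/
noncomputable def toZ : Gp →+ ℤ_[2] := Gsub.subtype

/-- constructor -/
def mk (z : ℤ_[2]) (h : nu z ≠ ⊤) : Gp := ⟨z, h⟩

@[simp] theorem toZ_mk (z : ℤ_[2]) (h : nu z ≠ ⊤) : toZ (mk z h) = z := rfl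

theorem toZ_injective : Function.Injective toZ := Subtype.val_injective

theorem nu_toZ (x : Gp) : nu (toZ x) ≠ ⊤ := x.2

/-- the group norm -/
noncomputable def gnorm : AddGroupNorm Gp where
  toFun x := (nu (toZ x)).toReal
  map_zero' := by simp [nu_zero]
  add_le' x y := by
    rw [← ENNReal.toReal_add (nu_toZ x) (nu_toZ y), map_add]
    exact ENNReal.toReal_mono (ENNReal.add_ne_top.2 ⟨nu_toZ x, nu_toZ y⟩) (nu_add_le _ _)
  neg' x := by simp [nu_neg]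
  eq_zero_of_map_eq_zero' x h := by
    rcases (ENNReal.toReal_eq_zero_iff _).1 h with h | h
    · exact toZ_injective (by rw [eq_zero_of_nu h, map_zero])
    · exact absurd h (nu_toZ x)

noncomputable instance : NormedAddCommGroup Gp := gnorm.toNormedAddCommGroup

theorem norm_def (x : Gp) : ‖x‖ = (nu (toZ x)).toReal := rfl

theorem ofReal_norm (x : Gp) : ENNReal.ofReal ‖x‖ = nu (toZ x) := by
  rw [norm_def, ENNReal.ofReal_toReal (nu_toZ x)]

theorem norm_lt_iff {x : Gp} {r : ℝ} (hr : 0 < r) : ‖x‖ < r ↔ nu (toZ x) < ENNReal.ofReal r := by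
  rw [← ofReal_norm, ENNReal.ofReal_lt_ofReal_iff hr]

theorem norm_le_iff {x : Gp} {r : ℝ} (hr : 0 ≤ r) : ‖x‖ ≤ r ↔ nu (toZ x) ≤ ENNReal.ofReal r := by
  rw [← ofReal_norm, ENNReal.ofReal_le_ofReal_iff hr]

theorem lam_le_norm (i : ℕ) (x : Gp) : lam i (toZ x) ≤ ‖x‖ := by
  have h := lam_le_nu i (toZ x)
  rw [← ofReal_norm] at h
  exact (ENNReal.ofReal_le_ofReal_iff (norm_nonneg _)).1 h

theorem dvd_of_norm_lt {i : ℕ} {x : Gp} (h : ‖x‖ < (1 / 2) ^ (i + 1)) :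
    (2 : ℤ_[2]) ^ ex i ∣ toZ x :=
  dvd_of_nu_lt ((norm_lt_iff (by positivity)).1 h)

/-- the powers of two -/
noncomputable def tp (j : ℕ) : Gp := mk ((2 : ℤ_[2]) ^ ex j) (by
  have := nu_nat_ne_top (2 ^ ex j)
  exact_mod_cast this)

@[simp] theorem toZ_tp (j : ℕ) : toZ (tp j) = (2 : ℤ_[2]) ^ ex j := rfl

theorem norm_tp_le (j : ℕ) : ‖tp j‖ ≤ (1 / 2) ^ j :=
  (norm_le_iff (by positivity)).2 (nu_pow_le j)

/-- `1 : Gp` -/
noncomputable def nat (n : ℕ) : Gp := mk (n : ℤ_[2]) (nu_nat_ne_top n)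

@[simp] theorem toZ_nat (n : ℕ) : toZ (nat n) = (n : ℤ_[2]) := rfl

/-- a sequence of 2-adic integers which is eventually constant modulo each power of two has a limit -/
theorem exists_lim (a : ℕ → ℤ_[2])
    (h : ∀ i, ∃ N, ∀ m ≥ N, ∀ n ≥ N, (2 : ℤ_[2]) ^ ex i ∣ a m - a n) :
    ∃ z, ∀ i, ∃ N, ∀ n ≥ N, (2 : ℤ_[2]) ^ ex i ∣ z - a n := by
  have key : ∀ (x : ℤ_[2]) (n : ℕ), (2 : ℤ_[2]) ^ n ∣ x ↔ ‖x‖ ≤ (2 : ℝ) ^ (-n : ℤ) := by
    intro x n
    have := PadicInt.norm_le_pow_iff_mem_span_pow (p := 2) x n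
    rw [Ideal.mem_span_singleton] at this
    exact_mod_cast this.symm
  have hc : CauchySeq a := by
    rw [Metric.cauchySeq_iff]
    intro ε hε
    obtain ⟨n, hn⟩ := exists_pow_lt_of_lt_one hε (by norm_num : (1 / 2 : ℝ) < 1)
    obtain ⟨N, hN⟩ := h n
    refine ⟨N, fun m hm k hk => ?_⟩
    rw [dist_eq_norm]
    have h1 := (key _ _).1 (hN m hm k hk)
    refine h1.trans_lt (lt_of_le_of_lt ?_ hn)
    rw [zpow_neg, zpow_natCast, one_div, inv_pow]
    refine inv_anti₀ (by positivity) (pow_le_pow_right₀ (by norm_num) ?_)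
    have := le_ex n
    omega
  obtain ⟨z, hz⟩ := cauchySeq_tendsto_of_complete hc
  refine ⟨z, fun i => ?_⟩
  obtain ⟨N, hN⟩ := h i
  refine ⟨N, fun n hn => ?_⟩
  rw [key]
  have h1 : Tendsto (fun m => ‖a m - a n‖) atTop (𝓝 ‖z - a n‖) :=
    (hz.sub_const (a n)).norm
  refine le_of_tendsto h1 ?_
  filter_upwards [eventually_ge_atTop N] with m hm
  exact (key _ _).1 (hN m hm n hn)

/-- A bound for the norm of a limit. -/
theorem nu_lim_le {a : ℕ → ℤ_[2]} {z : ℤ_[2]} {c : ℝ≥0∞}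
    (h : ∀ i, ∃ N, ∀ n ≥ N, (2 : ℤ_[2]) ^ ex i ∣ z - a n) (hc : ∃ N, ∀ n ≥ N, nu (a n) ≤ c) :
    nu z ≤ c := by
  obtain ⟨N₀, hN₀⟩ := hc
  unfold nu
  rw [ENNReal.tsum_eq_iSup_nat]
  refine iSup_le fun I => ?_
  obtain ⟨N, hN⟩ := h I
  have h1 : ∑ i ∈ Finset.range I, ENNReal.ofReal (lam i z) =
      ∑ i ∈ Finset.range I, ENNReal.ofReal (lam i (a (max N N₀))) := by
    refine Finset.sum_congr rfl fun i hi => ?_
    rw [Finset.mem_range] at hi
    rw [lam_congr' hi.le (hN _ (le_max_left _ _))]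
  rw [h1]
  exact (ENNReal.sum_le_tsum _).trans (hN₀ _ (le_max_right _ _))

theorem complete_seq (u : ℕ → Gp) (hu : CauchySeq u) : ∃ x, Tendsto u atTop (𝓝 x) := by
  rw [Metric.cauchySeq_iff] at hu
  obtain ⟨z, hz⟩ := exists_lim (fun n => toZ (u n)) (fun i => by
    obtain ⟨N, hN⟩ := hu ((1 / 2) ^ (i + 1)) (by positivity)
    refine ⟨N, fun m hm n hn => ?_⟩
    have := hN m hm n hn
    rw [dist_eq_norm] at this
    have h1 := dvd_of_norm_lt this
    rwa [map_sub] at h1)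
  have key : ∀ ε > 0, ∃ N, ∀ n ≥ N, nu (z - toZ (u n)) ≤ ENNReal.ofReal ε := by
    intro ε hε
    obtain ⟨N, hN⟩ := hu ε hε
    refine ⟨N, fun n hn => ?_⟩
    refine nu_lim_le (a := fun m => toZ (u m) - toZ (u n)) ?_ ⟨N, fun m hm => ?_⟩
    · intro i
      obtain ⟨N', hN'⟩ := hz i
      refine ⟨N', fun m hm => ?_⟩
      have := hN' m hm
      simpa using this
    · have := hN m hm n hn
      rw [dist_eq_norm] at this
      have h1 := ((norm_lt_iff hε).1 this).le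
      rwa [map_sub] at h1
  have hz0 : nu z ≠ ⊤ := by
    obtain ⟨N, hN⟩ := key 1 one_pos
    have h1 : z = (z - toZ (u N)) + toZ (u N) := by ring
    rw [h1]
    refine ne_top_of_le_ne_top (ENNReal.add_ne_top.2 ⟨?_, nu_toZ (u N)⟩) (nu_add_le _ _)
    exact ne_top_of_le_ne_top ENNReal.ofReal_ne_top (hN N le_rfl)
  refine ⟨mk z hz0, ?_⟩
  rw [Metric.tendsto_atTop]
  intro ε hε
  obtain ⟨N, hN⟩ := key (ε / 2) (by positivity)
  refine ⟨N, fun n hn => ?_⟩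
  rw [dist_comm, dist_eq_norm]
  have h1 : ‖mk z hz0 - u n‖ ≤ ε / 2 := by
    rw [norm_le_iff (by positivity), map_sub]
    exact hN n hn
  linarith

instance : CompleteSpace Gp := Metric.complete_of_cauchySeq_tendsto complete_seq

/-- every element divisible by `z` is in the closure of the multiples of `z` -/
theorem mem_of_dvd (K : AddSubgroup Gp) (hK : IsClosed (K : Set Gp)) {z w : Gp} (hz : z ∈ K)
    (hd : toZ z ∣ toZ w) : w ∈ K := by
  obtain ⟨y, hy⟩ := hd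
  have h0 : ∑' i, ENNReal.ofReal (2 * lam i (toZ z) + lam i (toZ w)) ≠ ⊤ := by
    have h1 : ∑' i, ENNReal.ofReal (2 * lam i (toZ z) + lam i (toZ w)) ≤
        2 * nu (toZ z) + nu (toZ w) := by
      unfold nu
      rw [← ENNReal.tsum_mul_left, ← ENNReal.tsum_add]
      refine ENNReal.tsum_le_tsum fun i => ?_
      rw [ENNReal.ofReal_add (by have := lam_nonneg i (toZ z); positivity) (lam_nonneg _ _),
        ENNReal.ofReal_mul (by norm_num)]
      simp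
    refine ne_top_of_le_ne_top ?_ h1
    exact ENNReal.add_ne_top.2 ⟨ENNReal.mul_ne_top (by simp) (nu_toZ z), nu_toZ w⟩
  have ht := ENNReal.tendsto_sum_nat_add _ h0
  have hlim : Tendsto (fun m => (y.appr (ex m)) • z) atTop (𝓝 w) := by
    rw [Metric.tendsto_atTop]
    intro ε hε
    have h2 := (tendsto_order.1 ht).2 (ENNReal.ofReal ε) (by simpa using hε)
    rw [eventually_atTop] at h2
    obtain ⟨N, hN⟩ := h2
    refine ⟨N, fun m hm => ?_⟩
    rw [dist_eq_norm, norm_lt_iff hε]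
    have h3 : toZ ((y.appr (ex m)) • z - w) = ((y.appr (ex m) : ℕ) : ℤ_[2]) * toZ z - toZ w := by
      rw [map_sub, map_nsmul, nsmul_eq_mul]
    rw [h3]
    have h4 : (2 : ℤ_[2]) ^ ex m ∣ ((y.appr (ex m) : ℕ) : ℤ_[2]) * toZ z - toZ w := by
      have h5 := PadicInt.appr_spec (ex m) y
      rw [Ideal.mem_span_singleton] at h5
      have h6 : ((y.appr (ex m) : ℕ) : ℤ_[2]) * toZ z - toZ w =
          (-toZ z) * (y - (y.appr (ex m) : ℕ)) := by
        rw [hy]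
        ring
      rw [h6]
      have h7 : (2 : ℤ_[2]) ^ ex m ∣ (y - (y.appr (ex m) : ℕ)) := by exact_mod_cast h5
      exact h7.mul_left _
    rw [nu_eq_tail h4]
    refine lt_of_le_of_lt ?_ (hN (m + 1) (by omega))
    refine ENNReal.tsum_le_tsum fun i => ENNReal.ofReal_le_ofReal ?_
    refine (lam_sub_le _ _ _).trans ?_
    have h8 := lam_mul_le (j := m) (i := i + (m + 1)) (k := y.appr (ex m)) (toZ z) (by omega)
      (PadicInt.appr_lt y (ex m)).le
    linarith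
  exact hK.mem_of_tendsto hlim (Eventually.of_forall fun m => K.nsmul_mem hz _)

/-- every non-zero closed subgroup contains all large powers of two -/
theorem exists_dvd_pow {z : ℤ_[2]} (hz : z ≠ 0) : ∃ n₀ : ℕ, ∀ n ≥ n₀, z ∣ (2 : ℤ_[2]) ^ n := by
  refine ⟨z.valuation, fun n hn => ?_⟩
  have h1 := PadicInt.unitCoeff_spec hz
  have h2 : (2 : ℤ_[2]) ^ z.valuation ∣ (2 : ℤ_[2]) ^ n := pow_dvd_pow _ hn
  rw [h1]
  have h3 : IsUnit ((PadicInt.unitCoeff hz : ℤ_[2]ˣ) : ℤ_[2]) := Units.isUnit _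
  rw [h3.mul_left_dvd]
  exact_mod_cast h2

theorem tp_mem (K : AddSubgroup Gp) (hK : IsClosed (K : Set Gp)) (hne : K ≠ ⊥) :
    ∃ j₀ : ℕ, ∀ j ≥ j₀, tp j ∈ K := by
  obtain ⟨z, hz, hz0⟩ : ∃ z : Gp, z ∈ K ∧ z ≠ 0 := by
    by_contra hcon
    push Not at hcon
    exact hne ((AddSubgroup.eq_bot_iff_forall K).2 hcon)
  have hz1 : toZ z ≠ 0 := fun h => hz0 (toZ_injective (by rw [h, map_zero]))
  obtain ⟨n₀, hn₀⟩ := exists_dvd_pow hz1
  refine ⟨n₀, fun j hj => ?_⟩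
  refine mem_of_dvd K hK hz ?_
  rw [toZ_tp]
  refine hn₀ _ ?_
  have := le_ex j
  omega

/-- the ball of radius `1/4` contains no non-trivial subgroup -/
theorem no_small_subgroup (N : AddSubgroup Gp) (hN : ∀ x ∈ N, ‖x‖ < 1 / 4) (x : Gp) (hx : x ∈ N) :
    x = 0 := by
  by_contra hx0
  have hz1 : toZ x ≠ 0 := fun h => hx0 (toZ_injective (by rw [h, map_zero]))
  obtain ⟨n₀, hn₀⟩ := exists_dvd_pow hz1
  have he : n₀ + 3 ≤ ex (n₀ + 2) := by have := le_ex (n₀ + 2); omega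
  obtain ⟨y, hy⟩ := hn₀ (ex (n₀ + 2) - 1) (by omega)
  have h1 := hN _ (N.nsmul_mem hx (y.appr (ex (n₀ + 2))))
  have h2 := lam_le_norm (n₀ + 2) ((y.appr (ex (n₀ + 2))) • x)
  have h3 : toZ ((y.appr (ex (n₀ + 2))) • x) = ((y.appr (ex (n₀ + 2)) : ℕ) : ℤ_[2]) * toZ x := by
    rw [map_nsmul, nsmul_eq_mul]
  have h4 : (2 : ℤ_[2]) ^ ex (n₀ + 2) ∣
      (((0 + 2 ^ (ex (n₀ + 2) - 1) : ℕ)) : ℤ_[2]) - toZ ((y.appr (ex (n₀ + 2))) • x) := by
    rw [h3]
    have h5 := PadicInt.appr_spec (ex (n₀ + 2)) y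
    rw [Ideal.mem_span_singleton] at h5
    have h7 : (2 : ℤ_[2]) ^ ex (n₀ + 2) ∣ (y - (y.appr (ex (n₀ + 2)) : ℕ)) := by exact_mod_cast h5
    have h6 : (((0 + 2 ^ (ex (n₀ + 2) - 1) : ℕ)) : ℤ_[2]) -
        ((y.appr (ex (n₀ + 2)) : ℕ) : ℤ_[2]) * toZ x =
        toZ x * (y - (y.appr (ex (n₀ + 2)) : ℕ)) := by
      push_cast
      rw [zero_add, hy]
      ring
    rw [h6]
    exact h7.mul_left _
  have h5 := lam_congr h4
  have h6 : (1 / 4 : ℝ) ≤ lam (n₀ + 2) (((0 + 2 ^ (ex (n₀ + 2) - 1) : ℕ)) : ℤ_[2]) := by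
    unfold lam
    have h7 := D_half (e := ex (n₀ + 2)) (n := 0) (by omega) (by positivity)
    calc (1 / 4 : ℝ) = (1 / 4 : ℝ) ^ (1 : ℝ) := by rw [Real.rpow_one]
      _ ≤ (1 / 4 : ℝ) ^ s (n₀ + 2) :=
        Real.rpow_le_rpow_of_exponent_ge (by norm_num) (by norm_num) (s_le_one _)
      _ ≤ _ := Real.rpow_le_rpow (by norm_num) h7 (s_pos _).le
  rw [h5] at h6
  linarith

end Pool.Agent.H44LM
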