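import Pool.Agent.H44LM.B

/-!
# A Polish group of 2-adic integers: closed subgroups are not zero-dimensional (Erdős' argument)
-/

set_option autoImplicit false

open scoped ENNReal Topology Nat
open Filter

namespace Pool.Agent.H44LM

theorem quarter_le_lam {i : ℕ} {z : ℤ_[2]} (h : 1 / 4 ≤ D (ex i) z) : 1 / 4 ≤ lam i z := by
  unfold lam
  calc (1 / 4 : ℝ) = (1 / 4 : ℝ) ^ (1 : ℝ) := by rw [Real.rpow_one]
      _ ≤ (1 / 4 : ℝ) ^ s i :=
        Real.rpow_le_rpow_of_exponent_ge (by norm_num) (by norm_num) (s_le_one _)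
      _ ≤ _ := Real.rpow_le_rpow (by norm_num) h (s_pos _).le

theorem ex_succ_ge {j : ℕ} (hj : 1 ≤ j) : ex j + 2 ≤ ex (j + 1) := by
  have h1 : ex (j + 1) = (j + 2) * ex j := by
    unfold ex
    rw [Nat.factorial_succ (j + 1)]
  have h2 := le_ex j
  rw [h1]
  nlinarith

theorem nat_add (m n : ℕ) : nat (m + n) = nat m + nat n := by
  apply toZ_injective
  simp

theorem nat_pow (j : ℕ) : nat (2 ^ ex j) = tp j := by
  apply toZ_injective
  simp

theorem step {C : Set Gp} (hCb : ∀ x ∈ C, ‖x‖ < 1 / 4) {j a : ℕ} (hj : 1 ≤ j)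
    (ha : nat a ∈ C) (ha2 : a < 2 ^ ex j) :
    ∃ a' : ℕ, nat a' ∈ C ∧ a' < 2 ^ ex (j + 1) ∧ (∃ c, a' = a + c * 2 ^ ex j) ∧
      nat a' + tp j ∉ C := by
  classical
  have he := ex_succ_ge hj
  have hP : ∃ c, nat (a + c * 2 ^ ex j) ∉ C := by
    refine ⟨2 ^ (ex (j + 1) - 1 - ex j), fun hmem => ?_⟩
    have h1 := hCb _ hmem
    have h2 := lam_le_norm (j + 1) (nat (a + 2 ^ (ex (j + 1) - 1 - ex j) * 2 ^ ex j))
    have h3 : a + 2 ^ (ex (j + 1) - 1 - ex j) * 2 ^ ex j = a + 2 ^ (ex (j + 1) - 1) := by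
      rw [← pow_add]
      congr 2
      omega
    rw [h3, toZ_nat] at h2
    have h4 : a ≤ 2 ^ (ex (j + 1) - 2) :=
      ha2.le.trans (Nat.pow_le_pow_right (by norm_num) (by omega))
    have h5 := quarter_le_lam (D_half (e := ex (j + 1)) (by omega) h4)
    rw [h3] at h1
    linarith
  have hc0 : Nat.find hP ≠ 0 := by
    intro h0
    have := Nat.find_spec hP
    rw [h0] at this
    simp only [zero_mul, add_zero] at this
    exact this ha
  obtain ⟨c, hc⟩ := Nat.exists_eq_succ_of_ne_zero hc0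
  have hcm : nat (a + c * 2 ^ ex j) ∈ C := by
    have := Nat.find_min hP (m := c) (by omega)
    push Not at this
    exact this
  have hcn : nat (a + (c + 1) * 2 ^ ex j) ∉ C := by
    have := Nat.find_spec hP
    rwa [hc] at this
  refine ⟨a + c * 2 ^ ex j, hcm, ?_, ⟨c, rfl⟩, ?_⟩
  · have hle : Nat.find hP ≤ 2 ^ (ex (j + 1) - 1 - ex j) := by
      apply Nat.find_min'
      intro hmem
      have h1 := hCb _ hmem
      have h2 := lam_le_norm (j + 1) (nat (a + 2 ^ (ex (j + 1) - 1 - ex j) * 2 ^ ex j))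
      have h3 : a + 2 ^ (ex (j + 1) - 1 - ex j) * 2 ^ ex j = a + 2 ^ (ex (j + 1) - 1) := by
        rw [← pow_add]
        congr 2
        omega
      rw [h3, toZ_nat] at h2
      have h4 : a ≤ 2 ^ (ex (j + 1) - 2) :=
        ha2.le.trans (Nat.pow_le_pow_right (by norm_num) (by omega))
      have h5 := quarter_le_lam (D_half (e := ex (j + 1)) (by omega) h4)
      rw [h3] at h1
      linarith
    have h6 : c + 1 ≤ 2 ^ (ex (j + 1) - 1 - ex j) := by omega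
    have h7 : a + c * 2 ^ ex j < (c + 1) * 2 ^ ex j := by
      have : (c + 1) * 2 ^ ex j = c * 2 ^ ex j + 2 ^ ex j := by ring
      omega
    refine h7.trans_le ((Nat.mul_le_mul_right _ h6).trans ?_)
    rw [← pow_add]
    exact Nat.pow_le_pow_right (by norm_num) (by omega)
  · have : nat (a + c * 2 ^ ex j) + tp j = nat (a + (c + 1) * 2 ^ ex j) := by
      rw [← nat_pow, ← nat_add]
      congr 1
      ring
    rwa [this]

theorem erdos (K : AddSubgroup Gp) (j₀ : ℕ) (hj₀ : 1 ≤ j₀) (htp : ∀ j ≥ j₀, tp j ∈ K)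
    (C : Set Gp) (h0 : (0 : Gp) ∈ C) (hCK : C ⊆ K) (hCb : ∀ x ∈ C, ‖x‖ < 1 / 4)
    (hCc : IsClosed C) (hCo : ∀ x ∈ C, ∃ ε > 0, ∀ y ∈ K, dist y x < ε → y ∈ C) : False := by
  classical
  -- the sequence
  have hstep : ∀ n a : ℕ, ∃ a' : ℕ, nat a ∈ C → a < 2 ^ ex (j₀ + n) →
      nat a' ∈ C ∧ a' < 2 ^ ex (j₀ + n + 1) ∧ (∃ c, a' = a + c * 2 ^ ex (j₀ + n)) ∧
      nat a' + tp (j₀ + n) ∉ C := by
    intro n a
    by_cases h : nat a ∈ C ∧ a < 2 ^ ex (j₀ + n)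
    · obtain ⟨a', ha'⟩ := step hCb (j := j₀ + n) (by omega) h.1 h.2
      exact ⟨a', fun _ _ => ha'⟩
    · exact ⟨0, fun h1 h2 => absurd ⟨h1, h2⟩ h⟩
  choose f hf using hstep
  obtain ⟨A, hA0, hAs⟩ : ∃ A : ℕ → ℕ, A 0 = 0 ∧ ∀ n, A (n + 1) = f n (A n) :=
    ⟨fun n => Nat.rec 0 (fun n a => f n a) n, rfl, fun n => rfl⟩
  have hinv : ∀ n, nat (A n) ∈ C ∧ A n < 2 ^ ex (j₀ + n) := by
    intro n
    induction n with
    | zero =>
      rw [hA0]
      refine ⟨?_, by positivity⟩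
      have : nat 0 = 0 := by apply toZ_injective; simp
      rwa [this]
    | succ n ih =>
      have := hf n (A n) ih.1 ih.2
      rw [hAs]
      exact ⟨this.1, this.2.1⟩
  have hnot : ∀ n, nat (A (n + 1)) + tp (j₀ + n) ∉ C := fun n => by
    rw [hAs]
    exact (hf n (A n) (hinv n).1 (hinv n).2).2.2.2
  have hdvd1 : ∀ n : ℕ, (2 : ℤ_[2]) ^ ex (j₀ + n) ∣ (A (n + 1) : ℤ_[2]) - (A n : ℤ_[2]) := by
    intro n
    obtain ⟨c, hc⟩ := (hf n (A n) (hinv n).1 (hinv n).2).2.2.1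
    rw [hAs, hc]
    refine ⟨(c : ℤ_[2]), ?_⟩
    push_cast
    ring
  have hdvd : ∀ n k : ℕ, (2 : ℤ_[2]) ^ ex (j₀ + n) ∣ (A (n + k) : ℤ_[2]) - (A n : ℤ_[2]) := by
    intro n k
    induction k with
    | zero => simp
    | succ k ih =>
      have h1 := hdvd1 (n + k)
      have h2 : (2 : ℤ_[2]) ^ ex (j₀ + n) ∣ (A (n + k + 1) : ℤ_[2]) - (A (n + k) : ℤ_[2]) :=
        (pow_dvd_pow _ (ex_mono (by omega))).trans h1
      have h3 := dvd_add h2 ih
      have h4 : (A (n + (k + 1)) : ℤ_[2]) - (A n : ℤ_[2]) =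
          (A (n + k + 1) : ℤ_[2]) - (A (n + k) : ℤ_[2]) + ((A (n + k) : ℤ_[2]) - (A n : ℤ_[2])) := by
        rw [← add_assoc]
        ring
      rw [h4]
      exact h3
  obtain ⟨z, hz⟩ := exists_lim (fun n : ℕ => ((A n : ℕ) : ℤ_[2])) (fun i => by
    refine ⟨i, fun m hm n hn => ?_⟩
    have h1 := hdvd i (m - i)
    have h2 := hdvd i (n - i)
    rw [Nat.add_sub_cancel' hm] at h1
    rw [Nat.add_sub_cancel' hn] at h2
    have h3 := dvd_sub h1 h2
    have h4 : (2 : ℤ_[2]) ^ ex i ∣ (2 : ℤ_[2]) ^ ex (j₀ + i) := pow_dvd_pow _ (ex_mono (by omega))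
    have h5 : (A m : ℤ_[2]) - (A n : ℤ_[2]) =
      (A m : ℤ_[2]) - (A i : ℤ_[2]) - ((A n : ℤ_[2]) - (A i : ℤ_[2])) := by ring
    show (2 : ℤ_[2]) ^ ex i ∣ (A m : ℤ_[2]) - (A n : ℤ_[2])
    rw [h5]
    exact h4.trans h3)
  have hzA : ∀ n : ℕ, (2 : ℤ_[2]) ^ ex (j₀ + n) ∣ z - (A n : ℤ_[2]) := by
    intro n
    obtain ⟨N, hN⟩ := hz (j₀ + n)
    have h1 := hN (n + N) (by omega)
    have h2 := hdvd n N
    have h3 := dvd_add h1 h2
    have h4 : z - (A n : ℤ_[2]) =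
      z - (A (n + N) : ℤ_[2]) + ((A (n + N) : ℤ_[2]) - (A n : ℤ_[2])) := by ring
    rw [h4]
    exact h3
  have hnuz : nu z ≤ ENNReal.ofReal (1 / 4) := by
    refine nu_lim_le hz ⟨0, fun n _ => ?_⟩
    have h1 := hCb _ (hinv n).1
    exact ((norm_lt_iff (by norm_num)).1 h1).le
  have hzt : nu z ≠ ⊤ := ne_top_of_le_ne_top ENNReal.ofReal_ne_top hnuz
  have hfs : ∑' i, ENNReal.ofReal (lam i z + (1 / 2) ^ i) ≠ ⊤ := by
    have h1 : ∑' i, ENNReal.ofReal (lam i z + (1 / 2) ^ i) =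
        nu z + ∑' i : ℕ, ENNReal.ofReal ((1 / 2 : ℝ) ^ i) := by
      unfold nu
      rw [← ENNReal.tsum_add]
      congr 1
      ext i
      rw [ENNReal.ofReal_add (lam_nonneg _ _) (by positivity)]
    rw [h1]
    refine ENNReal.add_ne_top.2 ⟨hzt, ?_⟩
    rw [← ENNReal.ofReal_tsum_of_nonneg (fun i => by positivity)
      (summable_geometric_of_lt_one (by norm_num) (by norm_num))]
    exact ENNReal.ofReal_ne_top
  have ht := ENNReal.tendsto_sum_nat_add _ hfs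
  have hlim : Tendsto (fun n => nat (A n)) atTop (𝓝 (mk z hzt)) := by
    rw [Metric.tendsto_atTop]
    intro ε hε
    have h2 := (tendsto_order.1 ht).2 (ENNReal.ofReal ε) (by simpa using hε)
    rw [eventually_atTop] at h2
    obtain ⟨N, hN⟩ := h2
    refine ⟨N, fun n hn => ?_⟩
    rw [dist_comm, dist_eq_norm, norm_lt_iff hε, map_sub, toZ_mk, toZ_nat, nu_eq_tail (hzA n)]
    refine lt_of_le_of_lt ?_ (hN (j₀ + n + 1) (by omega))
    refine ENNReal.tsum_le_tsum fun i => ENNReal.ofReal_le_ofReal ?_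
    refine (lam_sub_le _ _ _).trans ?_
    have := lam_nat_le (j := j₀ + n) (i := i + (j₀ + n + 1)) (by omega) (hinv n).2.le
    linarith
  have hzC : mk z hzt ∈ C := hCc.mem_of_tendsto hlim (Eventually.of_forall fun n => (hinv n).1)
  obtain ⟨ε, hε, hball⟩ := hCo _ hzC
  have hlim2 : Tendsto (fun n => nat (A (n + 1)) + tp (j₀ + n)) atTop (𝓝 (mk z hzt)) := by
    have h1 : Tendsto (fun n => tp (j₀ + n)) atTop (𝓝 0) := by
      rw [tendsto_zero_iff_norm_tendsto_zero]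
      refine squeeze_zero (fun n => norm_nonneg _) (fun n => norm_tp_le (j₀ + n)) ?_
      have h2 : Tendsto (fun n : ℕ => (1 / 2 : ℝ) ^ n) atTop (𝓝 0) :=
        tendsto_pow_atTop_nhds_zero_of_lt_one (by norm_num) (by norm_num)
      exact h2.comp (tendsto_add_atTop_nat j₀ |>.congr fun n => by rw [add_comm])
    have h2 : Tendsto (fun n => nat (A (n + 1))) atTop (𝓝 (mk z hzt)) :=
      hlim.comp (tendsto_add_atTop_nat 1)
    simpa using h2.add h1
  rw [Metric.tendsto_atTop] at hlim2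
  obtain ⟨N, hN⟩ := hlim2 ε hε
  refine hnot N (hball _ ?_ (hN N le_rfl))
  exact K.add_mem (hCK (hinv _).1) (htp _ (by omega))

/-- A closed subgroup which has a base of clopen sets is trivial. -/
theorem not_zeroDim (K : AddSubgroup Gp) (hK : IsClosed (K : Set Gp)) (hne : K ≠ ⊥)
    (hzd : ∀ x : K, ∀ U ∈ 𝓝 x, ∃ C : Set K, IsClopen C ∧ x ∈ C ∧ C ⊆ U) : False := by
  obtain ⟨j₀, hj₀⟩ := tp_mem K hK hne
  obtain ⟨C, hC, h0, hCU⟩ := hzd 0 (Metric.ball 0 (1 / 4)) (Metric.ball_mem_nhds _ (by norm_num))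
  refine erdos K (j₀ + 1) (by omega) (fun j hj => hj₀ j (by omega)) (Subtype.val '' C) ⟨0, h0, rfl⟩
    ?_ ?_ ?_ ?_
  · rintro _ ⟨x, _, rfl⟩
    exact x.2
  · rintro _ ⟨x, hx, rfl⟩
    have := hCU hx
    rw [Metric.mem_ball, Subtype.dist_eq] at this
    simpa using this
  · exact hK.isClosedEmbedding_subtypeVal.isClosedMap _ hC.1
  · rintro _ ⟨x, hx, rfl⟩
    obtain ⟨ε, hε, hb⟩ := Metric.isOpen_iff.1 hC.2 x hx
    refine ⟨ε, hε, fun y hy hd => ?_⟩
    exact ⟨⟨y, hy⟩, hb (by rw [Metric.mem_ball, Subtype.dist_eq]; exact hd), rfl⟩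

end Pool.Agent.H44LM
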