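import Pool.Agent.H44LM.C

/-!
# A Polish group of 2-adic integers: local minimality
-/

set_option autoImplicit false

open scoped ENNReal Topology Nat
open Filter

namespace Pool.Agent.H44LM

section general

variable {G : Type*} [AddCommGroup G] [TopologicalSpace G] [IsTopologicalAddGroup G]

theorem half {s : Set G} (hs : s ∈ 𝓝 (0 : G)) :
    ∃ V : Set G, V ∈ 𝓝 (0 : G) ∧ (∀ x ∈ V, ∀ y ∈ V, x + y ∈ s) ∧ (∀ x ∈ V, -x ∈ V) := by
  have h1 : Tendsto (fun p : G × G => p.1 + p.2) (𝓝 (0, 0)) (𝓝 0) := by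
    have := (continuous_add (M := G)).tendsto (0, 0)
    simpa using this
  have h2 := h1 hs
  rw [mem_map, nhds_prod_eq, mem_prod_iff] at h2
  obtain ⟨A, hA, B, hB, hAB⟩ := h2
  have h3 : (fun x : G => -x) ⁻¹' (A ∩ B) ∈ 𝓝 (0 : G) := by
    have h4 : Tendsto (fun x : G => -x) (𝓝 0) (𝓝 0) := by
      have := (continuous_neg (G := G)).tendsto 0
      simpa using this
    exact h4 (inter_mem hA hB)
  refine ⟨(A ∩ B) ∩ (fun x : G => -x) ⁻¹' (A ∩ B), inter_mem (inter_mem hA hB) h3, ?_, ?_⟩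
  · intro x hx y hy
    exact hAB (Set.mk_mem_prod hx.1.1 hy.1.2)
  · intro x hx
    refine ⟨hx.2, ?_⟩
    simpa using hx.1

theorem exists_seq {s : Set G} (hs : s ∈ 𝓝 (0 : G)) :
    ∃ W : ℕ → Set G, W 0 = s ∧ (∀ n, W n ∈ 𝓝 (0 : G)) ∧
      (∀ n, ∀ x ∈ W (n + 1), ∀ y ∈ W (n + 1), x + y ∈ W n) ∧
      (∀ n, ∀ x ∈ W (n + 1), -x ∈ W (n + 1)) := by
  choose f hf using fun s : {s : Set G // s ∈ 𝓝 (0 : G)} => half s.2
  let W : ℕ → {s : Set G // s ∈ 𝓝 (0 : G)} := fun n =>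
    Nat.rec ⟨s, hs⟩ (fun _ t => ⟨f t, (hf t).1⟩) n
  exact ⟨fun n => (W n).1, rfl, fun n => (W n).2, fun n => (hf (W n)).2.1, fun n => (hf (W n)).2.2⟩

end general

theorem pow_dvd_iff (x : ℤ_[2]) (n : ℕ) : (2 : ℤ_[2]) ^ n ∣ x ↔ ‖x‖ ≤ (2 : ℝ) ^ (-n : ℤ) := by
  have := PadicInt.norm_le_pow_iff_mem_span_pow (p := 2) x n
  rw [Ideal.mem_span_singleton] at this
  exact_mod_cast this.symm

theorem nu_sum_le (x w : ℤ_[2]) {I : ℕ} (hI : (2 : ℤ_[2]) ^ ex I ∣ w) :
    nu x + nu w ≤ nu (x + w) + 2 * ∑' i, ENNReal.ofReal (lam (i + (I + 1)) x) := by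
  have hsplit : ∀ z, nu z = ∑ i ∈ Finset.range (I + 1), ENNReal.ofReal (lam i z) +
      ∑' i, ENNReal.ofReal (lam (i + (I + 1)) z) := by
    intro z
    unfold nu
    rw [← ENNReal.summable.sum_add_tsum_nat_add' (k := I + 1)
      (f := fun i => ENNReal.ofReal (lam i z))]
  have h1 : ∑' i, ENNReal.ofReal (lam (i + (I + 1)) w) ≤
      ∑' i, ENNReal.ofReal (lam (i + (I + 1)) (x + w)) +
        ∑' i, ENNReal.ofReal (lam (i + (I + 1)) x) := by
    rw [← ENNReal.tsum_add]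
    refine ENNReal.tsum_le_tsum fun i => ?_
    rw [← ENNReal.ofReal_add (lam_nonneg _ _) (lam_nonneg _ _)]
    refine ENNReal.ofReal_le_ofReal ?_
    have := lam_sub_le (i + (I + 1)) (x + w) x
    rwa [add_sub_cancel_left] at this
  have h2 : ∑ i ∈ Finset.range (I + 1), ENNReal.ofReal (lam i (x + w)) =
      ∑ i ∈ Finset.range (I + 1), ENNReal.ofReal (lam i x) := by
    refine Finset.sum_congr rfl fun i hi => ?_
    rw [Finset.mem_range] at hi
    rw [lam_congr' (i := i) (m := I) (z := x + w) (w := x) (by omega) (by simpa using hI)]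
  rw [nu_eq_tail hI, hsplit x, hsplit (x + w), h2]
  calc _ ≤ ∑ i ∈ Finset.range (I + 1), ENNReal.ofReal (lam i x) +
        ∑' i, ENNReal.ofReal (lam (i + (I + 1)) x) +
        (∑' i, ENNReal.ofReal (lam (i + (I + 1)) (x + w)) +
        ∑' i, ENNReal.ofReal (lam (i + (I + 1)) x)) := by gcongr
    _ = _ := by ring

theorem norm_sum_ge (x w : Gp) {I : ℕ} (hI : (2 : ℤ_[2]) ^ ex I ∣ toZ w) {c : ℝ} (hc : 0 ≤ c)
    (ht : ∑' i, ENNReal.ofReal (lam (i + (I + 1)) (toZ x)) ≤ ENNReal.ofReal c) :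
    ‖x‖ + ‖w‖ ≤ ‖x + w‖ + 2 * c := by
  have h1 := nu_sum_le (toZ x) (toZ w) hI
  rw [← map_add, ← ofReal_norm, ← ofReal_norm, ← ofReal_norm] at h1
  have h2 : ENNReal.ofReal ‖x + w‖ + 2 * ∑' i, ENNReal.ofReal (lam (i + (I + 1)) (toZ x)) ≤
      ENNReal.ofReal (‖x + w‖ + 2 * c) := by
    rw [ENNReal.ofReal_add (norm_nonneg _) (by positivity), ENNReal.ofReal_mul (by norm_num)]
    simp only [ENNReal.ofReal_ofNat]
    gcongr
  have h3 := h1.trans h2
  rw [← ENNReal.ofReal_add (norm_nonneg _) (norm_nonneg _)] at h3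
  exact (ENNReal.ofReal_le_ofReal_iff (by positivity)).1 h3

theorem main (W : ℕ → Set Gp) (h0 : ∀ x ∈ W 0, ‖x‖ < 1 / 4) (hW : ∀ n, W n ∈ 𝓝 (0 : Gp))
    (hadd : ∀ n, ∀ x ∈ W (n + 1), ∀ y ∈ W (n + 1), x + y ∈ W n)
    (hneg : ∀ n, ∀ x ∈ W (n + 1), -x ∈ W (n + 1)) {δ : ℝ} (hδ : 0 < δ)
    (hy : ∀ n, ∃ y ∈ W n, δ ≤ ‖y‖) : False := by
  have hz : ∀ n, (0 : Gp) ∈ W n := fun n => mem_of_mem_nhds (hW n)
  have hanti1 : ∀ n, W (n + 1) ⊆ W n := fun n x hx => by
    have := hadd n x hx 0 (hz _)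
    rwa [add_zero] at this
  have hanti : Antitone W := antitone_nat_of_succ_le hanti1
  let N : AddSubgroup Gp :=
    { carrier := {x | ∀ n, x ∈ W n}
      zero_mem' := hz
      add_mem' := fun {a b} ha hb n => hadd n a (ha _) b (hb _)
      neg_mem' := fun {a} ha n => hanti1 n (hneg n a (ha _)) }
  have hN : ∀ x : Gp, (∀ n, x ∈ W n) → x = 0 := fun x hx =>
    no_small_subgroup N (fun y hy' => h0 y (hy' 0)) x hx
  choose y hyW hyδ using hy
  obtain ⟨a, g, hg, hlim⟩ := CompactSpace.tendsto_subseq (fun n => toZ (y n))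
  have huW : ∀ n, y (g n) ∈ W n := fun n => hanti (hg.id_le n) (hyW _)
  have hpad : ∀ i : ℕ, ∃ M, ∀ m ≥ M, ∀ n ≥ M,
      (2 : ℤ_[2]) ^ ex i ∣ toZ (y (g m)) - toZ (y (g n)) := by
    intro i
    have hc := hlim.cauchySeq
    rw [Metric.cauchySeq_iff] at hc
    obtain ⟨M, hM⟩ := hc ((2 : ℝ) ^ (-(ex i : ℤ))) (by positivity)
    refine ⟨M, fun m hm n hn => ?_⟩
    rw [pow_dvd_iff]
    have := hM m hm n hn
    rw [dist_eq_norm] at this
    exact this.le
  by_cases hc : CauchySeq (fun n => y (g n))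
  · obtain ⟨w, hw⟩ := cauchySeq_tendsto_of_complete hc
    have hw0 : w = 0 := by
      apply hN
      intro n
      have h1 : Tendsto (fun m => w - y (g m)) atTop (𝓝 0) := by
        have := (tendsto_const_nhds (x := w)).sub hw
        simpa using this
      have h2 := h1.eventually (hW (n + 1))
      obtain ⟨m, hm1, hm2⟩ := (h2.and (eventually_ge_atTop (n + 1))).exists
      have h3 := hadd n _ hm1 _ (hanti hm2 (huW m))
      rwa [sub_add_cancel] at h3
    rw [hw0] at hw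
    have h4 := hw.norm
    rw [norm_zero] at h4
    have h5 : δ ≤ 0 := ge_of_tendsto h4 (Eventually.of_forall fun n => hyδ _)
    linarith
  · rw [Metric.cauchySeq_iff] at hc
    push Not at hc
    obtain ⟨δ', hδ', hc⟩ := hc
    have hH : ∀ M I : ℕ, ∃ w ∈ W M, (2 : ℤ_[2]) ^ ex I ∣ toZ w ∧ δ' ≤ ‖w‖ := by
      intro M I
      obtain ⟨M', hM'⟩ := hpad I
      obtain ⟨m, hm, n, hn, hd⟩ := hc (max (M + 1) M')
      refine ⟨y (g m) - y (g n), ?_, ?_, ?_⟩
      · rw [sub_eq_add_neg]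
        refine hadd M _ (hanti ((le_max_left _ _).trans hm) (huW m)) _ (hneg M _ ?_)
        exact hanti ((le_max_left _ _).trans hn) (huW n)
      · rw [map_sub]
        exact hM' m ((le_max_right _ _).trans hm) n ((le_max_right _ _).trans hn)
      · rw [← dist_eq_norm]
        exact hd
    have hP : ∀ m M : ℕ, ∃ x ∈ W M, m * (δ' / 2) ≤ ‖x‖ := by
      intro m
      induction m with
      | zero => intro M; exact ⟨0, hz M, by simp⟩
      | succ m ih =>
        intro M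
        obtain ⟨x, hx, hxn⟩ := ih (M + 1)
        have ht := ENNReal.tendsto_sum_nat_add (fun i => ENNReal.ofReal (lam i (toZ x))) (nu_toZ x)
        have h2 := (tendsto_order.1 ht).2 (ENNReal.ofReal (δ' / 4)) (by simpa using hδ')
        rw [eventually_atTop] at h2
        obtain ⟨I, hI⟩ := h2
        obtain ⟨w, hw, hwd, hwn⟩ := hH (M + 1) I
        refine ⟨x + w, hadd M _ hx _ hw, ?_⟩
        have h3 := norm_sum_ge x w hwd (c := δ' / 4) (by positivity) (hI (I + 1) (by omega)).le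
        push_cast
        linarith
    obtain ⟨m, hm⟩ := exists_nat_gt (1 / (2 * δ'))
    obtain ⟨x, hx, hxn⟩ := hP m 0
    have h1 := h0 x hx
    rw [div_lt_iff₀ (by positivity)] at hm
    linarith

/-- Local minimality of the group. -/
theorem locMin : ∃ V ∈ 𝓝 (0 : Gp), ∀ σ : TopologicalSpace Gp,
    @IsTopologicalAddGroup Gp σ _ → @T2Space Gp σ →
    (PseudoMetricSpace.toUniformSpace.toTopologicalSpace : TopologicalSpace Gp) ≤ σ →
    V ∈ @nhds Gp σ 0 →
    σ = (PseudoMetricSpace.toUniformSpace.toTopologicalSpace : TopologicalSpace Gp) := by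
  refine ⟨Metric.ball 0 (1 / 4), Metric.ball_mem_nhds _ (by norm_num), ?_⟩
  intro σ hσ _ hle hV
  have key : ∀ δ > 0, Metric.ball (0 : Gp) δ ∈ @nhds Gp σ 0 := by
    intro δ hδ
    by_contra hcon
    obtain ⟨W, hW0, hWn, hadd, hneg⟩ := @exists_seq Gp _ σ hσ _ hV
    refine main W ?_ (fun n => ?_) hadd hneg hδ ?_
    · intro x hx
      rw [hW0] at hx
      simpa using hx
    · exact _root_.nhds_mono hle (hWn n)
    · intro n
      by_contra hcon2
      push Not at hcon2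
      apply hcon
      refine Filter.mem_of_superset (hWn n) fun x hx => ?_
      have := hcon2 x hx
      simpa using this
  refine IsTopologicalAddGroup.ext hσ inferInstance (le_antisymm ?_ (_root_.nhds_mono hle))
  intro s hs
  obtain ⟨δ, hδ, hb⟩ := Metric.mem_nhds_iff.1 hs
  exact Filter.mem_of_superset (key δ hδ) hb

end Pool.Agent.H44LM
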