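import Pool.Agent.H44LM.E

/-!
# A Polish group of 2-adic integers: total disconnectedness, separability
-/

set_option autoImplicit false

open scoped ENNReal Topology Nat
open Filter

namespace Pool.Agent.H44LM

theorem continuous_toZ : Continuous toZ := by
  refine continuous_of_continuousAt_zero toZ ?_
  rw [Metric.continuousAt_iff]
  intro ε hε
  obtain ⟨n, hn⟩ := exists_pow_lt_of_lt_one hε (by norm_num : (1 / 2 : ℝ) < 1)
  refine ⟨(1 / 2) ^ (n + 1), by positivity, fun {x} hx => ?_⟩
  rw [dist_zero_right] at hx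
  rw [map_zero, dist_zero_right]
  have h1 := (pow_dvd_iff _ _).1 (dvd_of_norm_lt hx)
  refine h1.trans_lt (lt_of_le_of_lt ?_ hn)
  rw [zpow_neg, zpow_natCast, one_div, inv_pow]
  refine inv_anti₀ (by positivity) (pow_le_pow_right₀ (by norm_num) ?_)
  have := le_ex n
  omega

instance : TotallyDisconnectedSpace Gp := by
  constructor
  refine isTotallyDisconnected_of_image (f := toZ) continuous_toZ.continuousOn toZ_injective ?_
  exact isTotallyDisconnected_of_totallyDisconnectedSpace _

theorem tendsto_tp : Tendsto tp atTop (𝓝 0) := by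
  rw [tendsto_zero_iff_norm_tendsto_zero]
  refine squeeze_zero (fun n => norm_nonneg _) (fun n => norm_tp_le n) ?_
  exact tendsto_pow_atTop_nhds_zero_of_lt_one (by norm_num) (by norm_num)

theorem tp_ne_zero (j : ℕ) : tp j ≠ 0 := by
  intro h
  have h1 := congrArg toZ h
  rw [toZ_tp, map_zero] at h1
  exact absurd h1 (pow_ne_zero _ (by norm_num))

theorem not_euclidean (n : ℕ) (e : OpenPartialHomeomorph Gp (EuclideanSpace ℝ (Fin n)))
    (h0 : (0 : Gp) ∈ e.source) : False := by
  have ht : e.target ∈ 𝓝 (e 0) := e.open_target.mem_nhds (e.map_source h0)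
  obtain ⟨r, hr, hb⟩ := Metric.mem_nhds_iff.1 ht
  have hconn : IsPreconnected (e.symm '' Metric.ball (e 0) r) :=
    (convex_ball (e 0) r).isPreconnected.image _ (e.continuousOn_symm.mono hb)
  have hsub := hconn.subsingleton
  have hn : e.source ∩ e ⁻¹' Metric.ball (e 0) r ∈ 𝓝 (0 : Gp) :=
    inter_mem (e.open_source.mem_nhds h0)
      ((e.continuousAt h0).preimage_mem_nhds (Metric.ball_mem_nhds _ hr))
  obtain ⟨j, hj⟩ := (tendsto_tp.eventually hn).exists
  have h1 : tp j ∈ e.symm '' Metric.ball (e 0) r := ⟨e (tp j), hj.2, e.left_inv hj.1⟩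
  have h2 : (0 : Gp) ∈ e.symm '' Metric.ball (e 0) r :=
    ⟨e 0, Metric.mem_ball_self hr, e.left_inv h0⟩
  exact tp_ne_zero j (hsub h1 h2)

instance : TopologicalSpace.SeparableSpace Gp := by
  refine ⟨⟨(AddSubgroup.zmultiples (nat 1) : Set Gp), ?_, ?_⟩⟩
  · exact (Set.countable_range fun k : ℤ => k • nat 1).mono (by
      rintro x ⟨k, hk⟩
      exact ⟨k, hk⟩)
  · intro x
    have h1 : x ∈ (AddSubgroup.zmultiples (nat 1)).topologicalClosure := by
      refine mem_of_dvd _ (AddSubgroup.isClosed_topologicalClosure _) (z := nat 1)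
        (AddSubgroup.le_topologicalClosure _ (AddSubgroup.mem_zmultiples _)) ?_
      rw [toZ_nat]
      simp
    exact h1

instance : PolishSpace Gp := by
  have : SecondCountableTopology Gp := UniformSpace.secondCountable_of_separable Gp
  infer_instance

end Pool.Agent.H44LM
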